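import Pool.Agent.H84.SM.Targets2

/-!
# MP_70ba79_ag, board `smc_modules`, row IFT: implicit functions in Hahn series
-/

set_option autoImplicit false

namespace Pool.Agent.H12.SM

open MvPolynomial SC Pool.Agent.H27.LV Pool.Agent.H84.SM Pool.Agent.H92.OD

/-- Taylor formula of second order -/
theorem taylor2 {k : Type} [Field k] (g : MvPolynomial (Fin 2) k) :
    ∃ R : MvPolynomial (Fin 3) k, ∀ (A : Type) [CommRing A] [Algebra k A] (u b h : A),
      aeval ![u, b + h] g = aeval ![u, b] g + h * aeval ![u, b] (pderiv 1 g) +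
        h ^ 2 * aeval ![u, b, h] R := by
  induction g using MvPolynomial.induction_on with
  | C a => exact ⟨0, fun A _ _ u b h => by simp⟩
  | add p q hp hq =>
    obtain ⟨R1, h1⟩ := hp
    obtain ⟨R2, h2⟩ := hq
    refine ⟨R1 + R2, fun A _ _ u b h => ?_⟩
    rw [map_add, map_add, map_add, map_add, map_add, h1, h2]
    ring
  | mul_X p i hp =>
    obtain ⟨R, hR⟩ := hp
    fin_cases i
    · refine ⟨R * X 0, fun A _ _ u b h => ?_⟩
      have h1 : pderiv (1 : Fin 2) (p * X 0) = pderiv 1 p * X 0 := by
        rw [Derivation.leibniz, pderiv_X]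
        simp
        ring
      simp only [Fin.zero_eta, Fin.isValue]
      rw [map_mul, map_mul, h1, map_mul, map_mul, hR]
      simp
      ring
    · refine ⟨R * (X 1 + X 2) + rename ![0, 1] (pderiv 1 p), fun A _ _ u b h => ?_⟩
      have h1 : pderiv (1 : Fin 2) (p * X 1) = pderiv 1 p * X 1 + p := by
        rw [Derivation.leibniz, pderiv_X]
        simp
        ring
      have h2 : aeval ![u, b, h] (rename ![0, 1] (pderiv 1 p)) = aeval ![u, b] (pderiv 1 p) := by
        rw [aeval_rename]
        congr 1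
        ext i
        fin_cases i <;> simp
      simp only [Fin.mk_one, Fin.isValue]
      rw [map_mul, map_mul, h1, map_add, map_mul, map_add, map_mul, hR, h2]
      simp
      ring

/-- evaluation of a polynomial at power series: constant coefficient -/
theorem constCoeff_aeval {k : Type} [Field k] {n : ℕ} (p : MvPolynomial (Fin n) k)
    (x : Fin n → PowerSeries k) :
    PowerSeries.constantCoeff (aeval x p) = eval (fun i => PowerSeries.constantCoeff (x i)) p := by
  induction p using MvPolynomial.induction_on with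
  | C a =>
    rw [algHom_C, eval_C]
    show PowerSeries.constantCoeff (algebraMap k (PowerSeries k) a) = a
    rw [PowerSeries.algebraMap_apply]
    simp
  | add p q hp hq => rw [map_add, map_add, map_add, hp, hq]
  | mul_X p i hp => rw [map_mul, map_mul, map_mul, hp, aeval_X, eval_X]

/-- the solution as a power series -/
theorem ps_root {k : Type} [Field k] (g : MvPolynomial (Fin 2) k) (h0 : eval ![0, 0] g = 0)
    (h1 : eval ![0, 0] (pderiv 1 g) ≠ 0) :
    ∃ φ : PowerSeries k, PowerSeries.constantCoeff φ = 0 ∧ aeval ![PowerSeries.X, φ] g = 0 := by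
  obtain ⟨R, hR⟩ := taylor2 g
  set c : k := eval ![0, 0] (pderiv 1 g) with hc
  let P : PowerSeries k → PowerSeries k := fun φ => aeval ![PowerSeries.X, φ] g
  let F : PowerSeries k → PowerSeries k := fun φ => φ - PowerSeries.C c⁻¹ * P φ
  have hcc : ∀ (φ : PowerSeries k) (p : MvPolynomial (Fin 2) k),
      PowerSeries.constantCoeff φ = 0 →
      PowerSeries.constantCoeff (aeval ![PowerSeries.X, φ] p) = eval ![0, 0] p := by
    intro φ p hφ
    rw [constCoeff_aeval]
    have e : (fun i => PowerSeries.constantCoeff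
        ((![PowerSeries.X, φ] : Fin 2 → PowerSeries k) i)) = ![0, 0] := by
      funext i
      fin_cases i
      · exact PowerSeries.constantCoeff_X
      · exact hφ
    rw [e]
  have hF : ∀ (n : ℕ) (φ ψ : PowerSeries k), PowerSeries.constantCoeff φ = 0 →
      PowerSeries.constantCoeff ψ = 0 → PowerSeries.X ^ n ∣ φ - ψ →
      PowerSeries.X ^ (n + 1) ∣ F φ - F ψ := by
    intro n φ ψ hφ hψ hn
    have e1 := hR (PowerSeries k) PowerSeries.X ψ (φ - ψ)
    have e2 : ψ + (φ - ψ) = φ := by ring
    rw [e2] at e1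
    have e3 : F φ - F ψ = (φ - ψ) * (1 - PowerSeries.C c⁻¹ *
        (aeval ![PowerSeries.X, ψ] (pderiv 1 g) +
          (φ - ψ) * aeval ![PowerSeries.X, ψ, φ - ψ] R)) := by
      show (φ - PowerSeries.C c⁻¹ * aeval ![PowerSeries.X, φ] g) -
        (ψ - PowerSeries.C c⁻¹ * aeval ![PowerSeries.X, ψ] g) = _
      rw [e1]; ring
    rw [e3, pow_succ]
    refine mul_dvd_mul hn ?_
    rw [PowerSeries.X_dvd_iff, map_sub, map_one, map_mul, map_add, map_mul, map_sub, hcc ψ _ hψ,
      hφ, hψ]
    simp only [PowerSeries.constantCoeff_C, sub_self, zero_mul, add_zero]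
    rw [← hc, inv_mul_cancel₀ h1, sub_self]
  have hF0 : ∀ φ : PowerSeries k, PowerSeries.constantCoeff φ = 0 →
      PowerSeries.constantCoeff (F φ) = 0 := by
    intro φ hφ
    show PowerSeries.constantCoeff (φ - PowerSeries.C c⁻¹ * aeval ![PowerSeries.X, φ] g) = 0
    rw [map_sub, map_mul, hcc φ _ hφ, h0, hφ]
    simp
  let s : ℕ → PowerSeries k := fun n => F^[n] 0
  have hs0 : ∀ n, PowerSeries.constantCoeff (s n) = 0 := by
    intro n
    induction n with
    | zero => simp [s]
    | succ n ih =>
      show PowerSeries.constantCoeff (F^[n + 1] 0) = 0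
      rw [Function.iterate_succ_apply']
      exact hF0 _ ih
  have hss : ∀ n, PowerSeries.X ^ (n + 1) ∣ s (n + 1) - s n := by
    intro n
    induction n with
    | zero =>
      rw [zero_add, pow_one, PowerSeries.X_dvd_iff, map_sub, hs0, hs0, sub_self]
    | succ n ih =>
      have e1 : s (n + 1 + 1) = F (s (n + 1)) := Function.iterate_succ_apply' F (n + 1) 0
      have e2 : s (n + 1) = F (s n) := Function.iterate_succ_apply' F n 0
      have h3 := hF (n + 1) (s (n + 1)) (s n) (hs0 _) (hs0 _) ih
      rw [← e1, ← e2] at h3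
      exact h3
  have hsm : ∀ n m, n ≤ m → PowerSeries.X ^ (n + 1) ∣ s m - s n := by
    intro n m hnm
    induction m, hnm using Nat.le_induction with
    | base => simp
    | succ m hm ih =>
      have e : s (m + 1) - s n = (s (m + 1) - s m) + (s m - s n) := by ring
      rw [e]
      exact dvd_add ((pow_dvd_pow _ (by omega)).trans (hss m)) ih
  let L : PowerSeries k := PowerSeries.mk fun n => PowerSeries.coeff n (s n)
  have hL : ∀ n, PowerSeries.X ^ (n + 1) ∣ L - s n := by
    intro n
    rw [PowerSeries.X_pow_dvd_iff]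
    intro m hm
    rw [map_sub, PowerSeries.coeff_mk]
    have h2 := hsm m n (by omega)
    rw [PowerSeries.X_pow_dvd_iff] at h2
    have h3 := h2 m (by omega)
    rw [map_sub] at h3
    rw [← neg_sub, h3, neg_zero]
  have hL0 : PowerSeries.constantCoeff L = 0 := by
    have := hL 0
    rw [zero_add, pow_one, PowerSeries.X_dvd_iff, map_sub, hs0, sub_zero] at this
    exact this
  have hfix : F L = L := by
    apply PowerSeries.ext
    intro n
    have h2 : PowerSeries.X ^ (n + 1) ∣ F L - L := by
      have e2 : s (n + 1) = F (s n) := Function.iterate_succ_apply' F n 0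
      have e : F L - L = (F L - F (s n)) + (s (n + 1) - s n) + (s n - L) := by
        rw [e2]; ring
      rw [e]
      refine dvd_add (dvd_add ?_ (hss n)) ?_
      · exact (pow_dvd_pow _ (by omega)).trans (hF (n + 1) _ _ hL0 (hs0 n) (hL n))
      · rw [← neg_sub]; exact (dvd_neg).mpr (hL n)
    rw [PowerSeries.X_pow_dvd_iff] at h2
    have h3 := h2 n (by omega)
    rw [map_sub] at h3
    exact sub_eq_zero.mp h3
  refine ⟨L, hL0, ?_⟩
  have h4 : PowerSeries.C c⁻¹ * aeval ![PowerSeries.X, L] g = 0 := by
    have : L - PowerSeries.C c⁻¹ * aeval ![PowerSeries.X, L] g = L := hfix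
    have h5 : L - (L - PowerSeries.C c⁻¹ * aeval ![PowerSeries.X, L] g) = 0 := by
      rw [this, sub_self]
    rw [← h5]; ring
  rcases mul_eq_zero.mp h4 with h5 | h5
  · exfalso
    have h6 := congrArg PowerSeries.constantCoeff h5
    rw [PowerSeries.constantCoeff_C, map_zero] at h6
    exact inv_ne_zero h1 h6
  · exact h5

/-- evaluation of a polynomial at integral series -/
theorem cf_aeval_zero {k : Type} [Field k] {n : ℕ} (p : MvPolynomial (Fin n) k)
    (x : Fin n → HS k) (hx : ∀ i, geO 0 (x i)) :
    geO 0 (aeval x p) ∧ cf (aeval x p) 0 = eval (fun i => cf (x i) 0) p := by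
  induction p using MvPolynomial.induction_on with
  | C a =>
    rw [algHom_C, eval_C]
    have e : algebraMap k (HS k) a = sg 0 a := algebraMap_HS a
    rw [e]
    exact ⟨geO_sg 0 a, by rw [cf_sg, if_pos rfl]⟩
  | add p q hp hq =>
    rw [map_add, map_add, cf_add, hp.2, hq.2]
    exact ⟨geO_add hp.1 hq.1, rfl⟩
  | mul_X p i hp =>
    rw [map_mul, map_mul, aeval_X, eval_X]
    have h := cf_mul_low hp.1 (hx i)
    rw [add_zero] at h
    exact ⟨h.1, by rw [h.2, hp.2]⟩

/-- power series as Hahn series -/
noncomputable def ofPS (k : Type) [Field k] : PowerSeries k →ₐ[k] HS k where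
  toRingHom := (HahnSeries.ofPowerSeries ℚ k : PowerSeries k →+* HahnSeries ℚ k)
  commutes' := fun a => by
    have e : algebraMap k (PowerSeries k) a = PowerSeries.C a := by
      rw [PowerSeries.algebraMap_apply]; rfl
    rw [e]
    exact HahnSeries.ofPowerSeries_C a

theorem ofPS_X (k : Type) [Field k] : ofPS k PowerSeries.X = uu k :=
  HahnSeries.ofPowerSeries_X

theorem cf_ofPS_nat {k : Type} [Field k] (f : PowerSeries k) (n : ℕ) :
    cf (ofPS k f) (n : ℚ) = PowerSeries.coeff n f :=
  HahnSeries.ofPowerSeries_apply_coeff f n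

theorem cf_ofPS_ne {k : Type} [Field k] (f : PowerSeries k) (r : ℚ)
    (h : ∀ n : ℕ, (n : ℚ) ≠ r) : cf (ofPS k f) r = 0 := by
  show (HahnSeries.embDomain (Nat.castOrderEmbedding (α := ℚ))
    (HahnSeries.toPowerSeries.symm f)).coeff r = 0
  apply HahnSeries.embDomain_of_notMem_range
  rintro ⟨n, hn⟩
  exact h n hn

theorem pf_IFT : T_IFT := by
  intro k _ _ g h0 h1
  obtain ⟨φ0, hφ0, hroot⟩ := ps_root g h0 h1
  obtain ⟨R, hR⟩ := taylor2 g
  have hgeφ : geO 1 (ofPS k φ0) := by
    intro s hs
    by_cases h : ∃ n : ℕ, (n : ℚ) = s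
    · obtain ⟨n, rfl⟩ := h
      have : n = 0 := by
        have : (n : ℚ) < 1 := hs
        have : n < 1 := by exact_mod_cast this
        omega
      subst this
      rw [cf_ofPS_nat]
      rw [PowerSeries.coeff_zero_eq_constantCoeff_apply]
      exact hφ0
    · exact cf_ofPS_ne φ0 s (fun n hn => h ⟨n, hn⟩)
  have haev : aeval ![uu k, ofPS k φ0] g = 0 := by
    have e : (![uu k, ofPS k φ0] : Fin 2 → HS k) =
        fun i => ofPS k ((![PowerSeries.X, φ0] : Fin 2 → PowerSeries k) i) := by
      ext i
      fin_cases i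
      · exact (ofPS_X k).symm
      · rfl
    rw [e, ← MvPolynomial.comp_aeval_apply, hroot, map_zero]
  refine ⟨ofPS k φ0, ?_, hgeφ, haev, ?_⟩
  · intro r hr
    by_contra h
    apply hr
    apply cf_ofPS_ne
    intro n hn
    apply h
    exact ⟨n, by rw [← hn]; push_cast; ring⟩
  · intro U μ hμ hU
    rw [hR (HS k) (uu k) (ofPS k φ0) U, haev, zero_add]
    have e : U * aeval ![uu k, ofPS k φ0] (pderiv 1 g) +
        U ^ 2 * aeval ![uu k, ofPS k φ0, U] R =
        U * (aeval ![uu k, ofPS k φ0] (pderiv 1 g) +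
          U * aeval ![uu k, ofPS k φ0, U] R) := by ring
    rw [e]
    have huu : geO 1 (uu k) := geO_sg 1 1
    have h01 : (0 : ℚ) ≤ 1 := by norm_num
    have hU0 : geO 0 U := geO_mono hU.2 hμ.le
    have k1 := cf_aeval_zero (pderiv 1 g) ![uu k, ofPS k φ0] (by
      intro i
      fin_cases i
      · exact geO_mono huu h01
      · exact geO_mono hgeφ h01)
    have k2 := cf_aeval_zero R ![uu k, ofPS k φ0, U] (by
      intro i
      fin_cases i
      · exact geO_mono huu h01
      · exact geO_mono hgeφ h01
      · exact hU0)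
    have k3 : (fun i => cf ((![uu k, ofPS k φ0] : Fin 2 → HS k) i) 0) = ![0, 0] := by
      ext i
      fin_cases i
      · exact huu 0 (by norm_num)
      · exact hgeφ 0 (by norm_num)
    have k4 : geO μ (U * aeval ![uu k, ofPS k φ0, U] R) := by
      have := geO_mul hU.2 k2.1
      rwa [add_zero] at this
    have k5 : IsO (aeval ![uu k, ofPS k φ0] (pderiv 1 g) +
        U * aeval ![uu k, ofPS k φ0, U] R) 0 := by
      refine ⟨?_, geO_add k1.1 (geO_mono k4 hμ.le)⟩
      rw [cf_add, k1.2, k3, k4 0 hμ, add_zero]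
      exact h1
    have := hU.mul k5
    rwa [add_zero] at this

end Pool.Agent.H12.SM
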