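import Pool.Agent.H84.SM.Targets

/-!
# MP_70ba79_ag, board `smc_modules`, row NDM: the dimension inequality
-/

set_option autoImplicit false

namespace Pool.Agent.H12.SM

open MvPolynomial SC Pool.Agent.H27.LV Pool.Agent.H84.SM

theorem pf_NDM (hNUD : T_NUD) (hCHN : T_CHN) (hEUB : T_EUB) (hELB : T_ELB) : T_NDM := by
  intro k _ _ _ G d hd hS hI
  obtain ⟨e1, he1⟩ := hELB k G d (by omega) hS hI
  obtain ⟨m1, hm1, h⟩ := hNUD d hd e1
  refine ⟨d * m1, Nat.mul_pos (by omega) hm1, ?_⟩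
  intro n τ hn hτ0 hτd
  have h1 := h n τ (by rw [mul_assoc]; exact hn) hτ0 hτd
  have h2 := (hEUB k G d (by omega) hS hI n τ).2
  have e60 : 60 * (d * m1) = 60 * d * m1 := by ring
  have e4 : (d - 4) * (d * m1) = (d - 4) * d * m1 := by ring
  rw [e60, e4]
  have h3 := hCHN k G d (by omega) hS hI (60 * d * m1) ((d + 56) * m1 + e1)
    (-(((d - 4) * d * m1 : ℕ) : ℤ))
  have hτ : -(((d - 4) * d * m1 : ℕ) : ℤ) + (((d + 56) * m1 + e1 : ℕ) : ℤ) * d =
      ((60 * d * m1 + d * e1 : ℕ) : ℤ) := by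
    have h4 : 4 ≤ d := by omega
    push_cast [Nat.cast_sub h4]
    ring
  rw [hτ] at h3
  have h5 := he1 (60 * d * m1) ((60 * d * m1 + d * e1 : ℕ) : ℤ) (by
    push_cast
    have : (e1 : ℤ) ≤ d * e1 := by
      have h6 : (1 : ℤ) ≤ d := by exact_mod_cast (by omega : 1 ≤ d)
      nlinarith [Int.natCast_nonneg e1]
    linarith)
  omega

end Pool.Agent.H12.SM
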