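import Pool.Agent.H84.SM.Targets

/-!
# MP_70ba79_ag, board `smc_modules`, row NUA: lower bound for the number `ub`
-/

set_option autoImplicit false

namespace Pool.Agent.H12.SM

open MvPolynomial SC Pool.Agent.H27.LV Pool.Agent.H84.SM

/-- sums of cubic polynomials -/
theorem sum_cubic (a b c e : ℝ) (M : ℕ) :
    ∑ j ∈ Finset.range (M + 1), (a + b * (j : ℝ) + c * (j : ℝ) ^ 2 + e * (j : ℝ) ^ 3) =
      a * (M + 1) + b * (M * (M + 1) / 2) + c * (M * (M + 1) * (2 * M + 1) / 6) +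
        e * (M ^ 2 * (M + 1) ^ 2 / 4) := by
  induction M with
  | zero => simp
  | succ M ih =>
    rw [Finset.sum_range_succ, ih]
    push_cast
    ring

theorem choose2 (n : ℕ) : (((n + 1).choose 2 : ℕ) : ℝ) = (n + 1) * n / 2 := by
  rw [Nat.cast_choose_two]
  push_cast
  ring

/-- lower bound for one summand -/
theorem bdim_ge (d j e1 i : ℕ) (hd : 4 ≤ d) :
    (d : ℝ) ^ 2 * (j : ℝ) ^ 2 * i / 2 + (((d : ℝ) - 1) * d * j - (d : ℝ) ^ 2) * (i : ℝ) ^ 2 / 2 ≤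
      (bdim d ((d * e1 + d * j : ℕ) : ℤ) i : ℝ) := by
  have hdR : (4 : ℝ) ≤ d := by exact_mod_cast hd
  have hneg : ¬ (((d * e1 + d * j : ℕ) : ℤ) < 0) := by
    have : (0 : ℤ) ≤ ((d * e1 + d * j : ℕ) : ℤ) := Int.natCast_nonneg _
    omega
  unfold bdim
  rw [if_neg hneg, Int.toNat_natCast]
  have hi : (0 : ℝ) ≤ i := Nat.cast_nonneg _
  have hj : (0 : ℝ) ≤ j := Nat.cast_nonneg _
  have he1 : (0 : ℝ) ≤ e1 := Nat.cast_nonneg _
  by_cases h0 : e1 + j = 0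
  · have hj0 : j = 0 := by omega
    have he0 : e1 = 0 := by omega
    subst hj0 he0
    have : (0 : ℝ) ≤ (((d * 0 + d * 0 + 2).choose 2 * (i + 2).choose 2 -
      (d * 0 + d * 0 + 3 - d).choose 2 * (i + 1).choose 2 : ℕ) : ℝ) := Nat.cast_nonneg _
    refine le_trans ?_ this
    push_cast
    have : 0 ≤ (d : ℝ) ^ 2 * (i : ℝ) ^ 2 := by positivity
    nlinarith
  · have hEd : d ≤ d * e1 + d * j := by
      have : 1 ≤ e1 + j := by omega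
      calc d = d * 1 := by ring
        _ ≤ d * (e1 + j) := Nat.mul_le_mul_left d this
        _ = _ := by ring
    obtain ⟨r, hr⟩ : ∃ r, d * e1 + d * j = d + r := ⟨d * e1 + d * j - d, by omega⟩
    have hrR : (r : ℝ) = d * e1 + d * j - d := by
      have : ((d * e1 + d * j : ℕ) : ℝ) = ((d + r : ℕ) : ℝ) := by rw [hr]
      push_cast at this
      linarith
    have hsub : d * e1 + d * j + 3 - d = (r + 2) + 1 := by omega
    rw [hsub]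
    have hcast : ((((d * e1 + d * j + 2).choose 2 * (i + 2).choose 2 : ℕ) : ℝ) -
        ((((r + 2) + 1).choose 2 * (i + 1).choose 2 : ℕ) : ℝ)) ≤
        (((d * e1 + d * j + 2).choose 2 * (i + 2).choose 2 -
          ((r + 2) + 1).choose 2 * (i + 1).choose 2 : ℕ) : ℝ) := by
      have : ((d * e1 + d * j + 2).choose 2 * (i + 2).choose 2 : ℕ) ≤
          ((d * e1 + d * j + 2).choose 2 * (i + 2).choose 2 -
          ((r + 2) + 1).choose 2 * (i + 1).choose 2) +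
          ((r + 2) + 1).choose 2 * (i + 1).choose 2 := by omega
      have h2 := (Nat.cast_le (α := ℝ)).mpr this
      rw [Nat.cast_add] at h2
      linarith
    refine le_trans ?_ hcast
    rw [Nat.cast_mul, Nat.cast_mul]
    have c1 : (((d * e1 + d * j + 2).choose 2 : ℕ) : ℝ) =
        ((d * e1 + d * j : ℝ) + 2) * ((d * e1 + d * j : ℝ) + 1) / 2 := by
      have := choose2 (d * e1 + d * j + 1)
      push_cast at this
      rw [this]; ring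
    have c2 : (((i + 2).choose 2 : ℕ) : ℝ) = ((i : ℝ) + 2) * ((i : ℝ) + 1) / 2 := by
      have := choose2 (i + 1)
      push_cast at this
      rw [this]; ring
    rw [c1, c2, choose2 (r + 2), choose2 i]
    push_cast
    rw [hrR]
    set E : ℝ := d * e1 + d * j with hE
    have hEd' : (d : ℝ) ≤ E := by
      rw [hE]; exact_mod_cast hEd
    have hEj : (d : ℝ) * j ≤ E := by
      rw [hE]; nlinarith
    have hE0 : 0 ≤ E := by linarith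
    have id1 : (E + 2) * (E + 1) / 2 * (((i : ℝ) + 2) * (i + 1) / 2) -
        (E - d + 2 + 1) * (E - d + 2) / 2 * (((i : ℝ) + 1) * i / 2) =
        (E + 2) * (E + 1) / 2 * (i + 1) +
          ((d - 1) * E - (d - 1) * (d - 4) / 2) * (i * (i + 1) / 2) := by ring
    rw [id1]
    have hdj : 0 ≤ (d : ℝ) * j := by positivity
    have b1 : (d : ℝ) ^ 2 * (j : ℝ) ^ 2 * i / 2 ≤ (E + 2) * (E + 1) / 2 * (i + 1) := by
      have s1 : ((d : ℝ) * j) ^ 2 ≤ E ^ 2 := pow_le_pow_left₀ hdj hEj 2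
      have s2 : ((d : ℝ) * j) ^ 2 * i ≤ E ^ 2 * i := mul_le_mul_of_nonneg_right s1 hi
      nlinarith [mul_nonneg hE0 hi]
    have b2 : (((d : ℝ) - 1) * d * j - (d : ℝ) ^ 2) * (i : ℝ) ^ 2 / 2 ≤
        ((d - 1) * E - (d - 1) * (d - 4) / 2) * (i * (i + 1) / 2) := by
      have s1 : ((d : ℝ) - 1) * d * j - (d : ℝ) ^ 2 ≤ (d - 1) * E - (d - 1) * (d - 4) / 2 := by
        have : ((d : ℝ) - 1) * (d * j) ≤ (d - 1) * E :=
          mul_le_mul_of_nonneg_left hEj (by linarith)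
        nlinarith
      have s0 : 0 ≤ ((d : ℝ) - 1) * E - (d - 1) * (d - 4) / 2 := by
        have : ((d : ℝ) - 1) * d ≤ (d - 1) * E :=
          mul_le_mul_of_nonneg_left hEd' (by linarith)
        nlinarith
      have s2 : (i : ℝ) ^ 2 / 2 ≤ i * (i + 1) / 2 := by nlinarith
      calc (((d : ℝ) - 1) * d * j - (d : ℝ) ^ 2) * (i : ℝ) ^ 2 / 2
          = (((d : ℝ) - 1) * d * j - (d : ℝ) ^ 2) * ((i : ℝ) ^ 2 / 2) := by ring
        _ ≤ ((d - 1) * E - (d - 1) * (d - 4) / 2) * ((i : ℝ) ^ 2 / 2) :=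
            mul_le_mul_of_nonneg_right s1 (by positivity)
        _ ≤ _ := mul_le_mul_of_nonneg_left s2 s0
    linarith

theorem pf_NUA : T_NUA := by
  intro d e1 hd
  refine ⟨40000 * (d : ℝ) ^ 5, ?_⟩
  intro m hm
  have hdR : (4 : ℝ) ≤ d := by exact_mod_cast hd
  have hmR : (1 : ℝ) ≤ m := by exact_mod_cast hm
  set M : ℕ := 20 * d * m with hM
  have hMR : (M : ℝ) = 20 * d * m := by rw [hM]; push_cast; ring
  have hM1 : (1 : ℝ) ≤ M := by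
    rw [hMR]
    nlinarith
  have hn3 : 60 * d * m / 3 = M := by
    have : 60 * d * m = 3 * M := by rw [hM]; ring
    rw [this]
    exact Nat.mul_div_cancel_left M (by norm_num)
  unfold ub
  rw [hn3]
  have hlow : ∑ j ∈ Finset.range (M + 1), ((d : ℝ) ^ 2 * (j : ℝ) ^ 2 * (3 * ((M : ℝ) - j)) / 2 +
      (((d : ℝ) - 1) * d * j - (d : ℝ) ^ 2) * (3 * ((M : ℝ) - j)) ^ 2 / 2) ≤
      ((∑ j ∈ Finset.range (M + 1), bdim d (((60 * d * m + d * e1 : ℕ) : ℤ) -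
        ((60 * d * m : ℕ) : ℤ) + d * (j : ℤ)) (60 * d * m - 3 * j) : ℕ) : ℝ) := by
    rw [Nat.cast_sum]
    apply Finset.sum_le_sum
    intro j hj
    have hjM : j ≤ M := by
      have := Finset.mem_range.mp hj
      omega
    have e1' : ((60 * d * m + d * e1 : ℕ) : ℤ) - ((60 * d * m : ℕ) : ℤ) + d * (j : ℤ) =
        ((d * e1 + d * j : ℕ) : ℤ) := by
      push_cast; ring
    have e2' : 60 * d * m - 3 * j = 3 * (M - j) := by
      have : 60 * d * m = 3 * M := by rw [hM]; ring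
      omega
    rw [e1', e2']
    have := bdim_ge d j e1 (3 * (M - j)) hd
    rw [Nat.cast_mul, Nat.cast_sub hjM] at this
    push_cast at this
    exact this
  refine le_trans ?_ hlow
  have hsum : ∑ j ∈ Finset.range (M + 1), ((d : ℝ) ^ 2 * (j : ℝ) ^ 2 * (3 * ((M : ℝ) - j)) / 2 +
      (((d : ℝ) - 1) * d * j - (d : ℝ) ^ 2) * (3 * ((M : ℝ) - j)) ^ 2 / 2) =
      (6 * (d : ℝ) ^ 2 - 9 * d / 2) * ((M : ℝ) ^ 2 * ((M : ℝ) ^ 2 - 1) / 12) -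
        9 * (d : ℝ) ^ 2 / 2 * ((M : ℝ) * (M + 1) * (2 * M + 1) / 6) := by
    have hc : ∀ j : ℕ, ((d : ℝ) ^ 2 * (j : ℝ) ^ 2 * (3 * ((M : ℝ) - j)) / 2 +
      (((d : ℝ) - 1) * d * j - (d : ℝ) ^ 2) * (3 * ((M : ℝ) - j)) ^ 2 / 2) =
      (-(9 * (d : ℝ) ^ 2 * (M : ℝ) ^ 2 / 2)) +
      (9 * ((d : ℝ) - 1) * d * (M : ℝ) ^ 2 / 2 + 9 * (d : ℝ) ^ 2 * M) * (j : ℝ) +
      (3 * (d : ℝ) ^ 2 * M / 2 - 9 * ((d : ℝ) - 1) * d * M - 9 * (d : ℝ) ^ 2 / 2) * (j : ℝ) ^ 2 +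
      (-(3 * (d : ℝ) ^ 2 / 2) + 9 * ((d : ℝ) - 1) * d / 2) * (j : ℝ) ^ 3 := by
      intro j; ring
    rw [Finset.sum_congr rfl (fun j _ => hc j), sum_cubic]
    ring
  rw [hsum]
  have hMM : (60 * (d : ℝ) * m) ^ 4 = 81 * (M : ℝ) ^ 4 := by rw [hMR]; ring
  have hCM : 40000 * (d : ℝ) ^ 5 * (m : ℝ) ^ 3 = 5 * (d : ℝ) ^ 2 * (M : ℝ) ^ 3 := by
    rw [hMR]; ring
  rw [hMM, hCM]
  have h1 : (M : ℝ) ^ 2 ≤ (M : ℝ) ^ 3 := by nlinarith [sq_nonneg (M : ℝ)]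
  have h2 : (M : ℝ) * (M + 1) * (2 * M + 1) / 6 ≤ (M : ℝ) ^ 3 := by
    nlinarith [sq_nonneg (M : ℝ), mul_nonneg (sub_nonneg.mpr hM1) (sq_nonneg (M : ℝ))]
  have h3 : (6 * (d : ℝ) ^ 2 - 9 * d / 2) * (M : ℝ) ^ 2 / 12 ≤ (d : ℝ) ^ 2 / 2 * (M : ℝ) ^ 3 := by
    have : (6 * (d : ℝ) ^ 2 - 9 * d / 2) * (M : ℝ) ^ 2 ≤ 6 * (d : ℝ) ^ 2 * (M : ℝ) ^ 2 := by
      apply mul_le_mul_of_nonneg_right _ (sq_nonneg _)
      linarith
    have h4 : 6 * (d : ℝ) ^ 2 * (M : ℝ) ^ 2 ≤ 6 * (d : ℝ) ^ 2 * (M : ℝ) ^ 3 :=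
      mul_le_mul_of_nonneg_left h1 (by positivity)
    linarith
  have h5 : 9 * (d : ℝ) ^ 2 / 2 * ((M : ℝ) * (M + 1) * (2 * M + 1) / 6) ≤
      9 * (d : ℝ) ^ 2 / 2 * (M : ℝ) ^ 3 := mul_le_mul_of_nonneg_left h2 (by positivity)
  have e4 : (4 * (d : ℝ) ^ 2 - 3 * d) / 648 * (81 * (M : ℝ) ^ 4) =
      (6 * (d : ℝ) ^ 2 - 9 * d / 2) * (M : ℝ) ^ 4 / 12 := by ring
  rw [e4]
  have e5 : (6 * (d : ℝ) ^ 2 - 9 * d / 2) * ((M : ℝ) ^ 2 * ((M : ℝ) ^ 2 - 1) / 12) =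
      (6 * (d : ℝ) ^ 2 - 9 * d / 2) * (M : ℝ) ^ 4 / 12 -
      (6 * (d : ℝ) ^ 2 - 9 * d / 2) * (M : ℝ) ^ 2 / 12 := by ring
  rw [e5]
  linarith

end Pool.Agent.H12.SM
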