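import Pool.Agent.H84.SM.Targets

/-!
# MP_70ba79_ag, board `smc_modules`, row NUD: the numerical inequality
-/

set_option autoImplicit false

namespace Pool.Agent.H12.SM

open MvPolynomial SC Pool.Agent.H27.LV Pool.Agent.H84.SM

/-- the coefficient of `m ^ 4` is positive -/
theorem nud_pos (a : ℝ) (ha : 0 ≤ a) (d : ℝ) (hd : d = 50 + a) :
    0 < (4 * d ^ 2 - 3 * d) / 648 * (60 * d) ^ 4 -
      ((54 * (1 - ((d - 4) / 60) ^ 2) + 48 * (d - 3) * (1 + (d - 4) / 60)) / 648 *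
        (60 * d) ^ 4 + (d - 4) ^ 2 * d ^ 4) -
      (d - 3) ^ 4 * (4 * d - 3) / 648 * (56 ^ 4 * d) := by
  subst hd
  ring_nf
  positivity

theorem pf_NUD (hNUA : T_NUA) (hNUB : T_NUB) (hNUC : T_NUC) : T_NUD := by
  intro d hd e1
  obtain ⟨C1, h1⟩ := hNUA d e1 (by omega)
  obtain ⟨C2, h2⟩ := hNUC d e1 (by omega)
  obtain ⟨C3, h3⟩ := hNUB d (by omega)
  have hd0 : (0 : ℝ) < d := by
    have : (50 : ℝ) ≤ d := by exact_mod_cast hd
    linarith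
  have hA := nud_pos ((d : ℝ) - 50) (by
    have : (50 : ℝ) ≤ d := by exact_mod_cast hd
    linarith) (d : ℝ) (by ring)
  set A : ℝ := (4 * (d : ℝ) ^ 2 - 3 * d) / 648 * (60 * d) ^ 4 -
      ((54 * (1 - (((d : ℝ) - 4) / 60) ^ 2) + 48 * (d - 3) * (1 + ((d : ℝ) - 4) / 60)) / 648 *
        (60 * d) ^ 4 + ((d : ℝ) - 4) ^ 2 * d ^ 4) -
      ((d : ℝ) - 3) ^ 4 * (4 * d - 3) / 648 * (56 ^ 4 * d) with hAdef
  obtain ⟨m0, hm0⟩ := exists_nat_gt ((C1 + C2 + |C3| * (56 * d) ^ 3) / A)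
  refine ⟨m0 + 1, by omega, ?_⟩
  intro n τ hn hτ0 hτd
  set m : ℕ := m0 + 1 with hm
  have hm1 : (1 : ℝ) ≤ m := by
    have : 1 ≤ m := by omega
    exact_mod_cast this
  have hmgt : (C1 + C2 + |C3| * (56 * d) ^ 3) / A < m := by
    have : (m0 : ℝ) ≤ m := by
      have : m0 ≤ m := by omega
      exact_mod_cast this
    linarith
  have hmA : C1 + C2 + |C3| * (56 * d) ^ 3 < m * A := by
    rwa [div_lt_iff₀ hA] at hmgt
  have k1 := h1 m (by omega)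
  have k2 := h2 m (by omega)
  have k3 := h3 (56 * d * m) n τ (by
    have : 1 ≤ d * m := Nat.mul_pos (by omega) (by omega)
    nlinarith) hn hτ0 hτd
  have key : ((∑ i ∈ Finset.range ((d + 56) * m + e1), cb d (60 * d * m)
      (-(((d - 4) * d * m : ℕ) : ℤ) + ((i : ℤ) + 1) * d) : ℕ) : ℝ) + (ub d n τ : ℝ) <
      (ub d (60 * d * m) ((60 * d * m + d * e1 : ℕ) : ℤ) : ℝ) := by
    push_cast at k3
    have e3 : ((d : ℝ) - 3) ^ 4 * (4 * d - 3) / (648 * (d : ℝ) ^ 3) * (56 * d * m) ^ 4 =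
        ((d : ℝ) - 3) ^ 4 * (4 * d - 3) / 648 * (56 ^ 4 * d) * (m : ℝ) ^ 4 := by
      field_simp
    rw [e3] at k3
    have hc3 : C3 * (56 * (d : ℝ) * m) ^ 3 ≤ |C3| * (56 * d) ^ 3 * (m : ℝ) ^ 3 := by
      have : C3 * (56 * (d : ℝ) * m) ^ 3 = C3 * ((56 * (d : ℝ)) ^ 3 * (m : ℝ) ^ 3) := by ring
      rw [this, mul_assoc]
      exact mul_le_mul_of_nonneg_right (le_abs_self _) (by positivity)
    have hm3 : (0 : ℝ) < (m : ℝ) ^ 3 := by positivity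
    have hfin : (C1 + C2 + |C3| * (56 * d) ^ 3) * (m : ℝ) ^ 3 < A * (m : ℝ) ^ 4 := by
      have := mul_lt_mul_of_pos_right hmA hm3
      nlinarith
    have hAexp : A * (m : ℝ) ^ 4 = (4 * (d : ℝ) ^ 2 - 3 * d) / 648 * (60 * d * m) ^ 4 -
      ((54 * (1 - (((d : ℝ) - 4) / 60) ^ 2) + 48 * (d - 3) * (1 + ((d : ℝ) - 4) / 60)) / 648 *
        (60 * d * m) ^ 4 + ((d : ℝ) - 4) ^ 2 * d ^ 4 * (m : ℝ) ^ 4) -
      ((d : ℝ) - 3) ^ 4 * (4 * d - 3) / 648 * (56 ^ 4 * d) * (m : ℝ) ^ 4 := by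
      rw [hAdef]; ring
    linarith
  exact_mod_cast key

end Pool.Agent.H12.SM
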